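import Mathlib
import Pool.Agent.Y734.Fin2
import Pool.Agent.Y734.B.Main
import Pool.Agent.Y734.USST.Main
import Pool.Agent.Y734.BR2.Main
import Pool.Agent.Y734.HYP2.Main
import Pool.Agent.Y734.GROW.Main
import Pool.Agent.Y734.DIM.Main
import Pool.Agent.TH551.SU.Sst
import Pool.Agent.Run7.h567.QP

/-!
# Quadratic points near lines in the projective plane (`δ = 2`)

The case `k = ℚ`, `δ = 2` of the question, so `3 δ = 6`. Let `D` be the sum of `q` lines over `ℚ` in general
position in `ℙ²`, `q` arbitrary. For all finite sets `S` of places of `ℚ`, all `ε > 0` and all points `x` of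
degree at most two off `D` we have

* `m_S(D, x) ≤ (6 + ε) h(x) + C` if `x` is not on one of finitely many lines, each of which contains at least
  three of the double points of `D`: these lines depend on `D` only, not on `S`, `ε` or `C`; moreover
* `m_S(D, x) ≤ (7 + ε) h(x) + C` if `x` is on none of these lines that contain four double points;
* `m_S(D, x) ≤ (8 + ε) h(x) + C` in all cases.

The constant `6` cannot be lowered in general (example on the problem page).

This is the theorem `MP_651af7_nt.QuadraticPlaneUniform` of helper567, handed in for this question.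

The proof. Let `x'` be the conjugate of `x`. The norms of the values of rational linear forms at `x`
are the values of rational linear forms at the symmetric matrix `M = x x'ᵀ + x' xᵀ`, a rational point
of `ℙ⁵` with `det M = 0`. If the inequality fails for a sequence of points, then one takes the germs
of the points along an ultrafilter, and applies the subspace theorem to the products of degree `k` of
the linear forms in the entries of `M`, with bases which are adapted at each place to the
approximation of `x` and of `x'` by the lines of `D`; the cases are distinguished by the dimension of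
the space spanned by the entries of `M`, and the geometry of the cubic `det M = 0` is used. This is
done in the modules `Pool/Agent/Y734` of the starting library, for points on lines with at most two
double points. New here is the treatment of the points on the lines with three or more double points
(`Pool/Agent/Run7/h567/QP.lean`), and so the bounds for all points: the dimension of the space is at
most three, in the case of dimension three one gets `6`, and otherwise the sum of the largest weights
at all places is at most `4`, and so is the sum of the second weights, which is also at most the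
number of the double points on the line, by the inequality of Liouville.
-/

set_option autoImplicit false

namespace Pool.Agent.Results.MP_d0e829_nt.QuadraticPointsOfThePlane

open NumberField IsDedekindDomain

variable {L : Type} [Field L] [NumberField L] {n : ℕ}

/-- The local Weil function of the divisor `F = 0`, `F` a form of degree `d` over `ℚ`, at the point
with homogeneous coordinates `x` over `L`, for the absolute value `a` of `L`. -/
noncomputable def weil (a : L → ℝ) (F : MvPolynomial (Fin (n + 1)) ℚ) (d : ℕ)
    (x : Fin (n + 1) → L) : ℝ :=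
  Real.log ((⨆ j, a (x j)) ^ d / a (MvPolynomial.aeval x F))

/-- The proximity function `∑_{v ∈ S} λ_{D,v}(x)`, with absolute normalisation, where `S` consists
of the archimedean place of `ℚ` and of the primes in `S`: the sum over all infinite places of `L`
and over the primes of `L` above the primes in `S`, divided by `[L : ℚ]`. -/
noncomputable def proximity (S : Finset ℕ) (F : MvPolynomial (Fin (n + 1)) ℚ) (d : ℕ)
    (x : Fin (n + 1) → L) : ℝ :=
  ((∑ w : InfinitePlace L, w.mult * weil w F d x) +
    ∑ᶠ v ∈ {v : HeightOneSpectrum (𝓞 L) | ∃ p ∈ S, (p : 𝓞 L) ∈ v.asIdeal},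
      weil (FinitePlace.mk v) F d x) / Module.finrank ℚ L

/-- The absolute logarithmic height. -/
noncomputable def height (x : Fin (n + 1) → L) : ℝ :=
  Height.logHeight x / Module.finrank ℚ L

/-- The linear form with coefficients `l`. -/
noncomputable def lin (l : Fin (n + 1) → ℚ) : MvPolynomial (Fin (n + 1)) ℚ :=
  ∑ j, MvPolynomial.C (l j) * MvPolynomial.X j

/-- The pairs `i < j` such that the point of intersection of the lines `lin (H i) = 0` and
`lin (H j) = 0` is on the line `lin ℓ = 0`. -/
def doublePoints {q : ℕ} (H : Fin q → Fin 3 → ℚ) (ℓ : Fin 3 → ℚ) : Finset (Fin q × Fin q) :=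
  Finset.univ.filter fun p => p.1 < p.2 ∧ (Matrix.of ![H p.1, H p.2, ℓ]).det = 0

/-- Let `D` be the sum of `q` lines `lin (H i) = 0` of the plane over `ℚ`, any three of which have no
common point. There is a finite set `Λ` of lines over `ℚ`, all of which contain at least three of
the points of intersection of two lines of `D`, such that for all finite sets `S` of primes and all
`ε > 0` there is a constant `C` such that for all number fields `L` of degree at most two and all
points `x ∈ ℙ²(L)` which are not on `D` the proximity function `∑_{v ∈ S ∪ {∞}} λ_{D,v}(x)` is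

(1) at most `(6 + ε) h(x) + C` if `x` is not on a line in `Λ`;

(2) at most `(7 + ε) h(x) + C` if `x` is not on a line in `Λ` which contains at least four of the
points of intersection of two lines of `D`;

(3) at most `(8 + ε) h(x) + C` in all cases. -/
theorem result (q : ℕ) (H : Fin q → Fin 3 → ℚ)
    (hH : ∀ i j k : Fin q, i ≠ j → i ≠ k → j ≠ k → LinearIndependent ℚ ![H i, H j, H k]) :
    ∃ Λ : Finset (Fin 3 → ℚ), (∀ ℓ ∈ Λ, ℓ ≠ 0 ∧ 3 ≤ (doublePoints H ℓ).card) ∧
      ∀ S : Finset ℕ, (∀ p ∈ S, p.Prime) → ∀ ε : ℝ, 0 < ε →
        ∃ C : ℝ, ∀ (L : Type) [Field L] [NumberField L], Module.finrank ℚ L ≤ 2 →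
          ∀ x : Fin 3 → L, x ≠ 0 → MvPolynomial.aeval x (∏ i, lin (n := 2) (H i)) ≠ 0 →
            ((∀ ℓ ∈ Λ, MvPolynomial.aeval x (lin (n := 2) ℓ) ≠ 0) →
              proximity (n := 2) S (∏ i, lin (H i)) q x ≤ (6 + ε) * height (n := 2) x + C) ∧
            ((∀ ℓ ∈ Λ, 4 ≤ (doublePoints H ℓ).card → MvPolynomial.aeval x (lin (n := 2) ℓ) ≠ 0) →
              proximity (n := 2) S (∏ i, lin (H i)) q x ≤ (7 + ε) * height (n := 2) x + C) ∧
            proximity (n := 2) S (∏ i, lin (H i)) q x ≤ (8 + ε) * height (n := 2) x + C := by
  classical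
  have husst := Pool.Agent.Y734.USST.usst Pool.Agent.TH551.SU.sst
  have hyp : ∀ m, Run7.h567.QP.HypM m := fun m => Run7.h567.QP.hypM m husst
    (Run7.h567.QP.absM m Pool.Agent.Y734.GROW.grow Pool.Agent.Y734.DIM.dim
      Pool.Agent.Y734.DIM.dim3)
  have hbr := Pool.Agent.Y734.BR2.br2
  by_cases hq : 4 ≤ q
  · refine ⟨Pool.Agent.Y734.B.lns H, fun ℓ hℓ => ?_, fun S hS ε hε => ?_⟩
    · unfold Pool.Agent.Y734.B.lns at hℓ
      rw [Finset.mem_filter] at hℓ
      exact hℓ.2
    · obtain ⟨C6, hC6⟩ := Run7.h567.QP.main_ofM 2 hbr (hyp 2) S hS q hq H hH ε hε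
      obtain ⟨C7, hC7⟩ := Run7.h567.QP.main_ofM 3 hbr (hyp 3) S hS q hq H hH ε hε
      obtain ⟨C8, hC8⟩ := Run7.h567.QP.main_ofM (max 4 (q * q)) hbr (hyp _) S hS q hq H hH ε hε
      rw [Run7.h567.QP.bd_two] at hC6
      rw [Run7.h567.QP.bd_three] at hC7
      rw [Run7.h567.QP.bd_ge (le_max_left 4 (q * q))] at hC8
      have key : ∀ (L : Type) [Field L] [NumberField L] (x : Fin 3 → L) (m : ℕ), 3 ≤ m →
          (∀ ℓ ∈ Pool.Agent.Y734.B.lns H, m ≤ (doublePoints H ℓ).card →
            MvPolynomial.aeval x (lin (n := 2) ℓ) ≠ 0) →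
          ∀ ℓ : Fin 3 → ℚ, ℓ ≠ 0 →
            MvPolynomial.aeval x (Pool.Agent.Y734.lin (n := 2) ℓ) = 0 →
              (Pool.Agent.Y734.B.dbl H ℓ).card ≤ m - 1 := by
        intro L _ _ x m hm hΛ ℓ hℓ h0
        by_contra h3
        push Not at h3
        obtain ⟨ℓ', hℓ', c, hc⟩ := Pool.Agent.Y734.B.mem_lns hq hH hℓ (by omega)
        have hℓ0 : ℓ' ≠ 0 := by
          unfold Pool.Agent.Y734.B.lns at hℓ'
          rw [Finset.mem_filter] at hℓ'
          exact hℓ'.2.1
        have hc0 : c ≠ 0 := by
          rintro rfl
          rw [zero_smul] at hc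
          exact hℓ0 hc
        refine hΛ ℓ' hℓ' ?_ ?_
        · change m ≤ (Pool.Agent.Y734.B.dbl H ℓ').card
          rw [hc, Pool.Agent.Y734.B.dbl_smul H hc0]
          omega
        · have e : MvPolynomial.aeval x (Pool.Agent.Y734.lin (n := 2) (c • ℓ)) =
              algebraMap ℚ L c * MvPolynomial.aeval x (Pool.Agent.Y734.lin (n := 2) ℓ) := by
            simp [Pool.Agent.Y734.lin, Finset.mul_sum, mul_assoc]
          change MvPolynomial.aeval x (Pool.Agent.Y734.lin (n := 2) ℓ') = 0
          rw [hc, e, h0, mul_zero]
      refine ⟨max C6 (max C7 C8), fun L _ _ hL x hx hF => ⟨fun hΛ => ?_, fun hΛ => ?_, ?_⟩⟩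
      · have h1 := hC6 L hL x hx hF (key L x 3 le_rfl fun ℓ hℓ _ => hΛ ℓ hℓ)
        have h2 : C6 ≤ max C6 (max C7 C8) := le_max_left _ _
        exact h1.trans (add_le_add le_rfl h2)
      · have h1 := hC7 L hL x hx hF (key L x 4 (by norm_num) hΛ)
        have h2 : C7 ≤ max C6 (max C7 C8) := (le_max_left _ _).trans (le_max_right _ _)
        exact h1.trans (add_le_add le_rfl h2)
      · have h1 := hC8 L hL x hx hF fun ℓ _ _ => by
          refine le_trans ?_ (le_max_right 4 (q * q))
          calc (Pool.Agent.Y734.B.dbl H ℓ).card ≤ (Finset.univ : Finset (Fin q × Fin q)).card :=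
                Finset.card_le_card (Finset.subset_univ _)
            _ = q * q := by simp
        have h2 : C8 ≤ max C6 (max C7 C8) := (le_max_right _ _).trans (le_max_right _ _)
        exact h1.trans (add_le_add le_rfl h2)
  · refine ⟨∅, by simp, fun S hS ε hε => ?_⟩
    obtain ⟨C0, hC0⟩ := hbr S hS q H
    obtain ⟨K, hK⟩ := Pool.Agent.Y734.B.liou_all S hS C0 H
    have main : ∀ (L : Type) [Field L] [NumberField L], Module.finrank ℚ L ≤ 2 →
        ∀ x : Fin 3 → L, x ≠ 0 → MvPolynomial.aeval x (∏ i, lin (n := 2) (H i)) ≠ 0 →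
          proximity (n := 2) S (∏ i, lin (H i)) q x ≤
            (6 + ε) * height (n := 2) x + (q * C0 + K + C0) / 2 ∧ 0 ≤ height (n := 2) x := by
      intro L _ _ hL x hx hF
      obtain ⟨Q, _, h2, h3, h4⟩ := hC0 L hL x hx hF
      have h6 := hK Q h3
      have h7 : (q : ℝ) * Q.h ≤ q * (2 * Pool.Agent.Y734.height (n := 2) x + C0) :=
        mul_le_mul_of_nonneg_left h2 (Nat.cast_nonneg _)
      have h8 : 0 ≤ Pool.Agent.Y734.height (n := 2) x :=
        div_nonneg (Height.logHeight_nonneg x) (Nat.cast_nonneg _)
      have h9 : (q : ℝ) ≤ 6 + ε := by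
        have : (q : ℝ) ≤ 3 := by exact_mod_cast (by omega : q ≤ 3)
        linarith
      have h10 := mul_le_mul_of_nonneg_right h9 h8
      refine ⟨?_, h8⟩
      change Pool.Agent.Y734.proximity (n := 2) S (∏ i, Pool.Agent.Y734.lin (H i)) q x ≤
        (6 + ε) * Pool.Agent.Y734.height (n := 2) x + (q * C0 + K + C0) / 2
      linarith
    refine ⟨(q * C0 + K + C0) / 2, fun L _ _ hL x hx hF => ?_⟩
    obtain ⟨h1, h2⟩ := main L hL x hx hF
    exact ⟨fun _ => h1, fun _ => by linarith, by linarith⟩

end Pool.Agent.Results.MP_d0e829_nt.QuadraticPointsOfThePlane
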